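import Pool.Agent.H1.BranchB

set_option autoImplicit false

namespace Pool.Agent.Results.MP_042d8e_al.InfinitelyMany

open Pool.Agent.H1.Branch

/-- There is a branch group with infinitely many pairwise inequivalent normal T-sequences. -/
theorem result : ∃ (G : Type) (_ : Group G), IsBranchGroup G ∧
    ∃ M : ℕ → ℕ → Subgroup G, (∀ i, IsNormalTSeq (M i)) ∧
      ∀ i j, i ≠ j → ¬ SeqEquiv (M i) (M j) := by
  refine ⟨FA, inferInstance, isBranch_FA, fun i => TS (SS i), fun i => ts_isNormal _, ?_⟩
  intro i j hij
  exact ts_inequiv (ss_spec hij)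

end Pool.Agent.Results.MP_042d8e_al.InfinitelyMany
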